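import Pool.Agent.H65NS.Rep

/-!
# Correlation sequences are integrals of nilsequences, in the pointwise sense of the question

The question asks for a compact metric space `Y`, a complex Borel measure `σ` of bounded variation
on `Y` and multi-variable nilsequences `N_y` such that `y ↦ N_y(n)` is `|σ|`-integrable for every
fixed `n` and `C(n) = ∫ N_y(n) dσ(y)` for all `n`. No bound of `N_y(n)` uniform in `n` is asked
for. The theorem: in this sense EVERY function `C : ℤ^ℓ → ℂ` has such a representation, with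
`Y = [0, 1]`, a finite positive measure `σ`, and `1`-step nilsequences `N_y` with continuous `F`.
-/

set_option autoImplicit false

open MeasureTheory Set

namespace Pool.Agent.Results.MP_b4ed41_an.EveryCorrelation

open Pool.Agent.H65NS

/-- Let `T_1, …, T_ℓ` be commuting invertible measure preserving maps of a probability space and
`f_0, …, f_ℓ` bounded measurable functions. There are a finite measure `σ` on `[0, 1]` and
`1`-step nilsequences `N_y` in `ℓ` variables such that `y ↦ N_y(n)` is `σ`-integrable and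
`∫ f_0 T_1^{n_1} f_1 ⋯ T_ℓ^{n_ℓ} f_ℓ dμ = ∫ N_y(n) dσ(y)` for all `n`. More generally every
function `C : ℤ^ℓ → ℂ` is of the form `C(n) = ∫ N_y(n) dσ(y)`. -/
theorem result :
    (∀ (X : Type*) [MeasurableSpace X] (μ : Measure X) [IsProbabilityMeasure μ] (ℓ : ℕ)
      (T : Fin ℓ → Equiv.Perm X), (∀ i, MeasurePreserving (T i) μ μ) →
      (∀ i j, Commute (T i) (T j)) →
      ∀ (f₀ : X → ℂ) (f : Fin ℓ → X → ℂ), MemLp f₀ ⊤ μ → (∀ i, MemLp (f i) ⊤ μ) →
      ∃ (N : Icc (0 : ℝ) 1 → (Fin ℓ → ℤ) → ℂ) (σ : Measure (Icc (0 : ℝ) 1)), IsFiniteMeasure σ ∧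
        (∀ y, IsNilsequence 1 ℓ (N y)) ∧ (∀ n, Integrable (fun y => N y n) σ) ∧
        ∀ n : Fin ℓ → ℤ, ∫ x, f₀ x * ∏ i, f i ((T i ^ n i) x) ∂μ = ∫ y, N y n ∂σ) ∧
    ∀ (ℓ : ℕ) (C : (Fin ℓ → ℤ) → ℂ),
      ∃ (N : Icc (0 : ℝ) 1 → (Fin ℓ → ℤ) → ℂ) (σ : Measure (Icc (0 : ℝ) 1)), IsFiniteMeasure σ ∧
        (∀ y, IsNilsequence 1 ℓ (N y)) ∧ (∀ n, Integrable (fun y => N y n) σ) ∧
        ∀ n, C n = ∫ y, N y n ∂σ :=
  ⟨fun _ _ μ _ ℓ T _ _ f₀ f _ _ => rep ℓ fun n => ∫ x, f₀ x * ∏ i, f i ((T i ^ n i) x) ∂μ, rep⟩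

end Pool.Agent.Results.MP_b4ed41_an.EveryCorrelation
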